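import Mathlib
import Pool.Agent.Lib.MP_377342_al.Defs
import Pool.Agent.Lib.MP_377342_al.Spec

namespace Pool.Agent.Results.MP_377342_al.ExtendQ1

open Matrix Quaternion Pool.Agent.Lib.MP_377342_al

/-- Q1: every `A`-invariant `HA`-neutral subspace extends to an `A`-invariant maximal
`HA`-nonnegative subspace and to an `A`-invariant maximal `HA`-nonpositive subspace. -/
theorem result (n : ℕ) (H A : Matrix (Fin n) (Fin n) ℍ[ℝ]) (hHu : IsUnit H) (hH : Hᴴ = -H)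
    (hA : H * A = -(Aᴴ * H)) (N : RSub n) (hN : Invariant A N) (hN0 : Neutral (H * A) N) :
    ∃ Lp Lm : RSub n, N ≤ Lp ∧ N ≤ Lm ∧ Invariant A Lp ∧ Invariant A Lm ∧
      Maximal (Nonneg (H * A)) Lp ∧ Maximal (Nonpos (H * A)) Lm := by
  have _ := hHu
  obtain ⟨Lp, h1, h2, h3⟩ := exists_max (herm_HA hH hA) (skew_HA hA) hN hN0
  obtain ⟨Lm, k1, k2, k3⟩ := exists_max (G := -(H * A)) (A := A)
    (by rw [conjTranspose_neg, herm_HA hH hA])
    (by rw [Matrix.mul_neg, skew_HA hA, Matrix.neg_mul]) hN hN0.neg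
  exact ⟨Lp, Lm, h1, k1, h2, k2, h3, by rw [nonpos_iff_nonneg_neg]; exact k3⟩

end Pool.Agent.Results.MP_377342_al.ExtendQ1
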