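import Mathlib
import Pool.Agent.Lib.MP_377342_al.Defs
import Pool.Agent.Lib.MP_377342_al.Spec

namespace Pool.Agent.Results.MP_377342_al.ExtendQ2

open Matrix Quaternion Pool.Agent.Lib.MP_377342_al

/-- Q2: the extensions can be chosen with prescribed c-set of eigenvalues off the imaginary
part. -/
theorem result (n : ℕ) (H A : Matrix (Fin n) (Fin n) ℍ[ℝ]) (hHu : IsUnit H) (hH : Hᴴ = -H)
    (hA : H * A = -(Aᴴ * H)) (N : RSub n) (hN : Invariant A N) (hN0 : Neutral (H * A) N)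
    (hS0 : ∀ c ∈ offEigs A N, -c ∉ offEigs A N)
    (S : Set ℍ[ℝ]) (hS : Maximal (PreCSet A) S) (hsub : offEigs A N ⊆ S) :
    ∃ Lp Lm : RSub n, N ≤ Lp ∧ N ≤ Lm ∧ Invariant A Lp ∧ Invariant A Lm ∧
      Maximal (Nonneg (H * A)) Lp ∧ Maximal (Nonpos (H * A)) Lm ∧
      offEigs A Lp = S ∧ offEigs A Lm = S := by
  have _ := hS0
  obtain ⟨Lp, h1, h2, h3, h4⟩ :=
    exists_max_spec (herm_HA hH hA) (skew_HA hA) (ker_HA hHu) hN hN0 hS hsub
  obtain ⟨Lm, k1, k2, k3, k4⟩ := exists_max_spec (G := -(H * A)) (A := A)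
    (by rw [conjTranspose_neg, herm_HA hH hA])
    (by rw [Matrix.mul_neg, skew_HA hA, Matrix.neg_mul])
    (fun y hy => ker_HA hHu y (by rwa [neg_mulVec, neg_eq_zero] at hy)) hN hN0.neg hS hsub
  exact ⟨Lp, Lm, h1, k1, h2, k2, h3, by rw [nonpos_iff_nonneg_neg]; exact k3, h4, k4⟩

end Pool.Agent.Results.MP_377342_al.ExtendQ2
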